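import Pool.Agent.Q88.JLp.Fin

/-!
# Nonassociative `L^p`-spaces depend on the state

Negative answer to Q1 of MP_09632a. Let `M` be the von Neumann algebra of the `2 × 2` matrices with
the Jordan product `x ∘ y = (xy + yx)/2` (a JBW*-algebra; its predual is its dual space), `p = 4`,
`φ(x) = a x₁₁ + (1 - a) x₂₂` with `0 < a < 1`, `a ≠ 1/2`, and `ψ` the normalized trace. Then the
complex interpolation spaces `L^4(M, φ) = (M, M_*)_{1/4}` and `L^4(M, ψ)` are not isometrically
isomorphic.

Definitions (`Pool.Agent.Q88.JLp.Defs`): `Adm`, `interpNorm`, `interpSpace` are the usual class of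
functions on the strip, the norm and the space of the complex interpolation method; `embed φ` is
`x ↦ φ_x`, `φ_x(y) = φ(x ∘ y)`; `Lp`, `lpNorm` and `LpIsometric` are the resulting spaces, their norms
and isometric isomorphism.

Proof. Write `q(y) = Tr (y*y)² = (Tr y*y)² - 2 |det y|²`. By explicit analytic families and the three
lines theorem `‖x‖⁴ = q(x)/2` in `L^4(M, ψ)`, and in `L^4(M, φ)` one has `‖diag(s, t)‖⁴ =
a |s|⁴ + (1 - a) |t|⁴` and `‖s e₁₂ + t e₂₁‖⁴ = (|s|⁴ + |t|⁴)/2`. Let `J` be an isometry and let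
`A, B, C, D` be the images of `e₁₁, e₂₂, e₁₂, e₂₁`. Averaging `q(A + ωB)` over the fourth roots of
unity gives `Tr A*B = 0` and equality in the Cauchy-Schwarz inequality for the polar form `δ` of the
determinant at `(A, B)`; the same for `(C, D)`. The sign symmetries of `L^4(M, φ)` give
`Tr A*C = 0` etc., and then the polar forms of the determinant at `(A, C)` etc. vanish. For
`u = e₁₁ - e₁₂ + e₂₁ + e₂₂`, `√2` times a unitary, `q(Ju) ≤ 8` reads
`(Tr A*A + Tr B*B + 2)² - 2 |δ - δ'|² ≤ 8` with `(Tr A*A)² = 2a`, `(Tr B*B)² = 2(1 - a)`,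
`|δ|² = Tr A*A Tr B*B`, `|δ'| = 1`; this forces `Tr A*A = Tr B*B`, so `a = 1/2`.
-/

set_option autoImplicit false

namespace Pool.Agent.Results.MP_09632a_an.StateDependence

open Q88.JLp

open scoped Matrix.Norms.L2Operator

/-- **The nonassociative `L^4`-space of the `2 × 2` matrices depends on the state**: for every
`0 < a < 1`, `a ≠ 1/2`, the functionals `φ(x) = a x₁₁ + (1 - a) x₂₂` and `ψ = Tr/2` are faithful
states on `M_2(ℂ)`, and `L^4(M_2(ℂ), φ)` and `L^4(M_2(ℂ), ψ)` are not isometrically isomorphic. -/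
theorem result (a : ℝ) (h0 : 0 < a) (h1 : a < 1) (hne : a ≠ 1 / 2) :
    IsFaithfulState (diagState a) ∧ IsFaithfulState (diagState (1 / 2)) ∧
      ¬ LpIsometric 4 (diagState a) (diagState (1 / 2)) :=
  ⟨isFaithfulState_diagState h0 h1, isFaithfulState_diagState (by norm_num) (by norm_num),
    not_isometric h0 h1 hne⟩

end Pool.Agent.Results.MP_09632a_an.StateDependence
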